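import Pool.Agent.AT8.Stmts3
import Pool.Agent.Helper21_AT8.RVA

/-!
# AVB: the average over a coset of `V ^ (ℓ ^ k)`
-/

set_option autoImplicit false
set_option linter.unusedSectionVars false
set_option linter.style.haveILetI false

open scoped BigOperators

noncomputable section

namespace Pool.Agent.PP.T8.H95

open Pool.Agent.Helper51_AWC Pool.Agent.Helper79_WRA Pool.Agent.PP Pool.Agent.PP.KF
open Pool.Agent.PP.K9 Pool.Agent.PP.K9.H97 Pool.Agent.PP.H75 Pool.Agent.PP.T3 Pool.Agent.PP.T2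

attribute [local instance] Ideal.Quotient.field

section orb

variable {X : Type} [CommGroup X] [Finite X] {ℓ : ℕ}

/-- `y` is a power of `x` with exponent `1` modulo `ℓ` -/
def Rl (ℓ : ℕ) (x y : X) : Prop := ∃ j, j ≡ 1 [MOD ℓ] ∧ y = x ^ j

theorem Rl_symm (hℓ : ℓ.Prime) {E : ℕ} (hE0 : 0 < E) (hE : ∀ x : X, x ^ ℓ ^ E = 1) {x y : X}
    (h : Rl ℓ x y) : Rl ℓ y x := by
  obtain ⟨j, hj, rfl⟩ := h
  have hc : Nat.Coprime j ℓ := by
    have h1 : Nat.gcd j ℓ = Nat.gcd 1 ℓ := by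
      have := Nat.ModEq.gcd_eq hj
      exact this
    rw [Nat.Coprime, h1, Nat.gcd_one_left]
  have hc2 : Nat.Coprime j (ℓ ^ E) := hc.pow_right E
  have h1 : 1 < ℓ ^ E := Nat.one_lt_pow hE0.ne' hℓ.one_lt
  obtain ⟨m, -, hm⟩ := Nat.exists_mul_mod_eq_one_of_coprime hc2 h1
  refine ⟨m, ?_, ?_⟩
  · have h2 : j * m ≡ 1 [MOD ℓ ^ E] := by
      rw [Nat.ModEq, hm, Nat.mod_eq_of_lt h1]
    have h3 : j * m ≡ 1 [MOD ℓ] := h2.of_dvd (dvd_pow_self ℓ hE0.ne')
    have h4 : j * m ≡ 1 * m [MOD ℓ] := hj.mul_right m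
    rw [one_mul] at h4
    exact h4.symm.trans h3
  · rw [← pow_mul, ← Nat.div_add_mod (j * m) (ℓ ^ E), hm, pow_add, pow_mul, hE, one_pow, one_mul,
      pow_one]

theorem Rl_trans {x y z : X} (h : Rl ℓ x y) (h' : Rl ℓ y z) : Rl ℓ x z := by
  obtain ⟨j, hj, rfl⟩ := h
  obtain ⟨j', hj', rfl⟩ := h'
  exact ⟨j * j', by simpa using hj.mul hj', by rw [pow_mul]⟩

/-- the number of the powers of `x` with exponents `1` modulo `ℓ` -/
theorem card_Rl [Fintype X] [DecidableEq X] (hℓ : ℓ.Prime) {x : X} {m : ℕ}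
    (hm : orderOf x = ℓ ^ (m + 1)) [DecidablePred (Rl ℓ x)] :
    (Finset.univ.filter (fun y : X => Rl ℓ x y)).card = ℓ ^ m := by
  have h1 : Finset.univ.filter (fun y : X => Rl ℓ x y) =
      (Finset.range (ℓ ^ m)).image (fun i => x ^ (1 + ℓ * i)) := by
    ext y
    simp only [Finset.mem_filter, Finset.mem_univ, true_and, Finset.mem_image, Finset.mem_range]
    constructor
    · rintro ⟨j, hj, rfl⟩
      refine ⟨(j / ℓ) % ℓ ^ m, Nat.mod_lt _ (pow_pos hℓ.pos m), ?_⟩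
      rw [pow_eq_pow_iff_modEq, hm]
      have h2 : j % ℓ = 1 := by
        rw [hj, Nat.mod_eq_of_lt hℓ.one_lt]
      have h3 : 1 + ℓ * (j / ℓ) = j := by
        have := Nat.div_add_mod j ℓ
        omega
      have h4 : ℓ * (j / ℓ % ℓ ^ m) ≡ ℓ * (j / ℓ) [MOD ℓ ^ (m + 1)] := by
        rw [pow_succ, mul_comm (ℓ ^ m) ℓ]
        exact Nat.ModEq.mul_left' ℓ (Nat.mod_modEq _ _)
      have h5 := h4.add_left 1
      rw [h3] at h5
      exact h5
    · rintro ⟨i, -, rfl⟩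
      exact ⟨1 + ℓ * i, by simp [Nat.ModEq], rfl⟩
  rw [h1, Finset.card_image_of_injOn, Finset.card_range]
  intro i hi i' hi' h
  simp only at h
  rw [pow_eq_pow_iff_modEq, hm] at h
  have h2 : ℓ * i ≡ ℓ * i' [MOD ℓ * ℓ ^ m] := by
    have := Nat.ModEq.add_left_cancel' 1 h
    rwa [pow_succ, mul_comm (ℓ ^ m) ℓ] at this
  have h3 : i ≡ i' [MOD ℓ ^ m] := Nat.ModEq.mul_left_cancel' hℓ.ne_zero h2
  rw [Nat.ModEq, Nat.mod_eq_of_lt (Finset.mem_range.1 hi), Nat.mod_eq_of_lt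
    (Finset.mem_range.1 hi')] at h3
  exact h3

/-- The sum over the elements which are not killed by `ℓ ^ k` is divisible by `ℓ ^ k`. -/
theorem orb [Fintype X] [DecidableEq X] (R : Subring ℂ) (hℓ : ℓ.Prime) {E : ℕ} (hE0 : 0 < E)
    (hE : ∀ x : X, x ^ ℓ ^ E = 1) (g : X → ℂ) (hg : ∀ x, g x ∈ R)
    (hj : ∀ x : X, ∀ j, j ≡ 1 [MOD ℓ] → g (x ^ j) = g x) (k : ℕ) :
    ∃ r ∈ R, ∑ x ∈ Finset.univ.filter (fun x : X => x ^ ℓ ^ k ≠ 1), g x = (ℓ : ℂ) ^ k * r := by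
  classical
  let S : Setoid X :=
    { r := Rl ℓ
      iseqv := ⟨fun x => ⟨1, rfl, (pow_one x).symm⟩, fun h => Rl_symm hℓ hE0 hE h,
        fun h h' => Rl_trans h h'⟩ }
  set s : Finset X := Finset.univ.filter (fun x : X => x ^ ℓ ^ k ≠ 1) with hs
  have key : ∀ x0 ∈ s, ∃ r ∈ R, ∑ y ∈ s.filter (fun y => Quotient.mk S y = Quotient.mk S x0), g y =
      (ℓ : ℂ) ^ k * r := by
    intro x0 hx0
    have hx1 : x0 ^ ℓ ^ k ≠ 1 := (Finset.mem_filter.1 hx0).2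
    obtain ⟨m, hm1, hm2⟩ := (Nat.dvd_prime_pow hℓ).1 (orderOf_dvd_of_pow_eq_one (hE x0))
    have hkm : k < m := by
      by_contra h
      push Not at h
      apply hx1
      rw [← orderOf_dvd_iff_pow_eq_one, hm2]
      exact pow_dvd_pow ℓ h
    obtain ⟨m', rfl⟩ : ∃ m', m = m' + 1 := ⟨m - 1, by omega⟩
    have h1 : s.filter (fun y => Quotient.mk S y = Quotient.mk S x0) =
        Finset.univ.filter (fun y : X => Rl ℓ x0 y) := by
      ext y
      simp only [hs, Finset.mem_filter, Finset.mem_univ, true_and]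
      constructor
      · rintro ⟨-, h⟩
        exact Rl_symm hℓ hE0 hE (Quotient.exact h)
      · intro h
        refine ⟨fun h0 => hx1 ?_, Quotient.sound (Rl_symm hℓ hE0 hE h)⟩
        obtain ⟨j, -, h2⟩ := Rl_symm hℓ hE0 hE h
        rw [h2, ← pow_mul, mul_comm, pow_mul, h0, one_pow]
    refine ⟨(ℓ : ℂ) ^ (m' - k) * g x0, R.mul_mem (R.pow_mem (natCast_mem R ℓ) _) (hg x0), ?_⟩
    rw [h1]
    have h2 : ∀ y ∈ Finset.univ.filter (fun y : X => Rl ℓ x0 y), g y = g x0 := by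
      intro y hy
      obtain ⟨j, hj1, rfl⟩ := (Finset.mem_filter.1 hy).2
      exact hj x0 j hj1
    rw [Finset.sum_congr rfl h2, Finset.sum_const, card_Rl hℓ hm2, nsmul_eq_mul, ← mul_assoc,
      ← pow_add, Nat.add_sub_of_le (by omega)]
    push_cast
    rfl
  have h0 := Finset.sum_partition S (s := s) (f := g)
  have key2 : ∀ q ∈ s.image (Quotient.mk S), ∃ r ∈ R,
      ∑ y ∈ s.filter (fun y => Quotient.mk S y = q), g y = (ℓ : ℂ) ^ k * r := by
    intro q hq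
    obtain ⟨x0, hx0, rfl⟩ := Finset.mem_image.1 hq
    exact key x0 hx0
  choose! r hr1 hr2 using key2
  refine ⟨∑ q ∈ s.image (Quotient.mk S), r q, Subring.sum_mem _ fun q hq => hr1 q hq, ?_⟩
  rw [Finset.mul_sum, h0]
  exact Finset.sum_congr rfl fun q hq => hr2 q hq

/-- the averages over the exponents `1` modulo `ℓ` -/
theorem avg [Fintype X] [DecidableEq X] (hℓ : ℓ.Prime) {E : ℕ}
    (hE : ∀ x : X, x ^ ℓ ^ (E + 1) = 1) (c : X → ℂ)
    (hc : ∀ x : X, ∀ j, j ≡ 1 [MOD ℓ] → c (x ^ j) = c x) (ev : X →* ℂ) (k : ℕ) :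
    ∑ x ∈ Finset.univ.filter (fun x : X => x ^ ℓ ^ k ≠ 1), c x * ev x =
    ∑ x ∈ Finset.univ.filter (fun x : X => x ^ ℓ ^ k ≠ 1), (if ev x ^ ℓ = 1 then c x * ev x else 0)
      := by
  classical
  set s : Finset X := Finset.univ.filter (fun x : X => x ^ ℓ ^ k ≠ 1) with hs
  have h1 : ∀ j, j ≡ 1 [MOD ℓ] → ∑ x ∈ s, c x * ev x = ∑ x ∈ s, c x * ev x ^ j := by
    intro j hj
    have hb : Function.Injective (fun x : X => x ^ j) := by
      intro x y hxy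
      simp only at hxy
      obtain ⟨m, hm, h2⟩ := Rl_symm hℓ (Nat.succ_pos E) hE (x := x) (y := x ^ j) ⟨j, hj, rfl⟩
      have h3 : Rl ℓ x (x ^ j) := ⟨j, hj, rfl⟩
      have h4 : (x * y⁻¹) ^ j = 1 := by
        rw [mul_pow, inv_pow, hxy, mul_inv_cancel]
      obtain ⟨m', -, h5⟩ := Rl_symm hℓ (Nat.succ_pos E) hE (x := x * y⁻¹) (y := (x * y⁻¹) ^ j)
        ⟨j, hj, rfl⟩
      rw [h4, one_pow] at h5
      exact mul_inv_eq_one.1 h5
    symm
    refine Finset.sum_bij (fun x _ => x ^ j) ?_ (fun x _ y _ h => hb h) ?_ ?_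
    · intro x hx
      rw [hs, Finset.mem_filter] at hx ⊢
      refine ⟨Finset.mem_univ _, fun h => hx.2 ?_⟩
      apply hb
      simp only
      rw [← pow_mul, mul_comm, pow_mul, h, one_pow]
    · intro y hy
      obtain ⟨m, hm, h2⟩ := Rl_symm hℓ (Nat.succ_pos E) hE (x := y) (y := y ^ j) ⟨j, hj, rfl⟩
      refine ⟨y ^ m, ?_, ?_⟩
      · rw [hs, Finset.mem_filter] at hy ⊢
        refine ⟨Finset.mem_univ _, fun h => hy.2 ?_⟩
        have h3 : y = (y ^ m) ^ j := by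
          rw [← pow_mul, mul_comm, pow_mul, ← h2]
        rw [h3, ← pow_mul, mul_comm, pow_mul, h, one_pow]
      · rw [← pow_mul, mul_comm, pow_mul, ← h2]
    · intro x _
      rw [hc x j hj, map_pow]
  have hL : (ℓ ^ E : ℂ) ≠ 0 := pow_ne_zero _ (Nat.cast_ne_zero.2 hℓ.ne_zero)
  have h2 : (ℓ ^ E : ℂ) * ∑ x ∈ s, c x * ev x =
      (ℓ ^ E : ℂ) * ∑ x ∈ s, (if ev x ^ ℓ = 1 then c x * ev x else 0) := by
    have h3 : (ℓ ^ E : ℂ) * ∑ x ∈ s, c x * ev x =
        ∑ i ∈ Finset.range (ℓ ^ E), ∑ x ∈ s, c x * ev x ^ (1 + ℓ * i) := by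
      rw [← Finset.sum_congr rfl fun i _ => h1 (1 + ℓ * i) (by simp [Nat.ModEq]),
        Finset.sum_const, Finset.card_range, nsmul_eq_mul]
      push_cast
      rfl
    rw [h3, Finset.sum_comm, Finset.mul_sum]
    refine Finset.sum_congr rfl fun x _ => ?_
    have h4 : ∀ i, c x * ev x ^ (1 + ℓ * i) = c x * ev x * (ev x ^ ℓ) ^ i := by
      intro i
      rw [pow_add, pow_one, pow_mul]
      ring
    rw [Finset.sum_congr rfl fun i _ => h4 i, ← Finset.mul_sum]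
    by_cases h5 : ev x ^ ℓ = 1
    · rw [if_pos h5]
      simp only [h5, one_pow, Finset.sum_const, Finset.card_range, nsmul_eq_mul, mul_one]
      push_cast
      ring
    · rw [if_neg h5, mul_zero]
      have h6 : (ev x ^ ℓ) ^ ℓ ^ E = 1 := by
        rw [← pow_mul, ← pow_succ', ← map_pow, hE, map_one]
      have h7 := geom_sum_mul (ev x ^ ℓ) (ℓ ^ E)
      rw [h6, sub_self] at h7
      rw [(mul_eq_zero.1 h7).resolve_right (sub_ne_zero.2 h5), mul_zero]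
  exact mul_left_cancel₀ hL h2

theorem orb2 [Fintype X] [DecidableEq X] (R : Subring ℂ) (hℓ : ℓ.Prime) {E : ℕ}
    (hE : ∀ x : X, x ^ ℓ ^ (E + 1) = 1) (c : X → ℂ) (hcR : ∀ x, c x ∈ R)
    (hc : ∀ x : X, ∀ j, j ≡ 1 [MOD ℓ] → c (x ^ j) = c x) (ev : X →* ℂ) (hev : ∀ x, ev x ∈ R)
    (k : ℕ) :
    ∃ r ∈ R, ∑ x ∈ Finset.univ.filter (fun x : X => x ^ ℓ ^ k ≠ 1),
      (if ev x ^ ℓ = 1 then c x * ev x else 0) = (ℓ : ℂ) ^ k * r := by
  classical
  have hg : ∀ x : X, (if ev x ^ ℓ = 1 then c x * ev x else 0) ∈ R := by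
    intro x
    by_cases h : ev x ^ ℓ = 1
    · rw [if_pos h]
      exact R.mul_mem (hcR x) (hev x)
    · rw [if_neg h]
      exact R.zero_mem
  have hj : ∀ x : X, ∀ j, j ≡ 1 [MOD ℓ] →
      (if ev (x ^ j) ^ ℓ = 1 then c (x ^ j) * ev (x ^ j) else 0) =
      (if ev x ^ ℓ = 1 then c x * ev x else 0) := by
    intro x j hj
    have h4 : ev (x ^ j) ^ ℓ = 1 ↔ ev x ^ ℓ = 1 := by
      constructor
      · intro h
        obtain ⟨m, -, h5⟩ := Rl_symm hℓ (Nat.succ_pos E) hE (x := x) (y := x ^ j)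
          ⟨j, hj, rfl⟩
        have h6 : ev x = ev (x ^ j) ^ m := by
          rw [← map_pow]
          exact congrArg ev h5
        rw [h6, ← pow_mul, mul_comm, pow_mul, h, one_pow]
      · intro h
        rw [map_pow, ← pow_mul, mul_comm, pow_mul, h, one_pow]
    by_cases h5 : ev x ^ ℓ = 1
    · rw [if_pos h5, if_pos (h4.2 h5), hc x j hj, map_pow]
      congr 1
      have h6 : j % ℓ = 1 := by
        rw [hj, Nat.mod_eq_of_lt hℓ.one_lt]
      rw [← Nat.div_add_mod j ℓ, h6, pow_add, pow_mul, h5, one_pow, one_mul, pow_one]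
    · rw [if_neg h5, if_neg (fun h => h5 (h4.1 h))]
  exact orb R hℓ (Nat.succ_pos E) hE (fun x => if ev x ^ ℓ = 1 then c x * ev x else 0) hg hj k

end orb

section main

variable {M : Ideal (integralClosure ℤ ℂ)} [M.IsMaximal] {G : Type} [Group G] [Finite G]

/-- the coefficients, for homomorphisms with values in the units -/
def cu (V : Subgroup G) (f : G → ℂ) (χ : V →* ℂˣ) : ℂ :=
  H21.cf (fun v : V => f v) ((Units.coeHom ℂ).comp χ)

theorem finite_units (V : Subgroup G) : Finite (V →* ℂˣ) := by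
  haveI := H21.finite_hom (V := V)
  exact Finite.of_equiv _ (MonoidHom.toHomUnitsMulEquiv (G := V) (M := ℂ)).toEquiv

theorem inv_units {V : Subgroup G} (hV : ∀ a ∈ V, ∀ b ∈ V, a * b = b * a) [Fintype (V →* ℂˣ)]
    (f : G → ℂ) (v : V) : f v = ∑ χ : V →* ℂˣ, cu V f χ * (χ v : ℂ) := by
  haveI := H21.finite_hom (V := V)
  haveI := Fintype.ofFinite (V →* ℂ)
  have h := H21.inversion (H21.comm_sub hV) (fun v : V => f v) v
  rw [h]
  refine Fintype.sum_equiv (MonoidHom.toHomUnitsMulEquiv (G := V) (M := ℂ)).toEquiv _ _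
    fun lam => ?_
  have e : (Units.coeHom ℂ).comp ((MonoidHom.toHomUnitsMulEquiv (G := V) (M := ℂ)).toEquiv lam) =
      lam := by
    ext v
    simp
  rw [cu, e]
  have e2 : (((MonoidHom.toHomUnitsMulEquiv (G := V) (M := ℂ)).toEquiv lam v : ℂˣ) : ℂ) = lam v :=
    DFunLike.congr_fun e v
  rw [e2]

theorem cu_pow {V : Subgroup G} {f : G → ℂ} {j : ℕ} (hc : (Nat.card V).Coprime j)
    (hf : ∀ v ∈ V, f (v ^ j) = f v) (χ : V →* ℂˣ) : cu V f (χ ^ j) = cu V f χ := by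
  classical
  haveI := Fintype.ofFinite V
  rw [cu, cu, H21.cf_eq, H21.cf_eq]
  congr 1
  refine Fintype.sum_equiv (powCoprime hc) _ _ fun v => ?_
  have h1 : f ((powCoprime hc v : V) : G) = f v := by
    rw [← hf v v.2]
    rfl
  rw [h1]
  congr 1
  have h2 : (powCoprime hc v)⁻¹ = (v⁻¹) ^ j := by
    rw [inv_pow]
    rfl
  rw [h2, map_pow]
  show ((χ ^ j) v⁻¹ : ℂ) = ((χ v⁻¹ : ℂˣ) : ℂ) ^ j
  rw [MonoidHom.pow_apply, Units.val_pow_eq_pow_val]

theorem avb (hPWU : PwuStmt) : AvbStmt := by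
  intro ℓ hℓ M hM hlM G _ _ N hGS V hP hV f hf hfN k W hW y hy
  classical
  have hℓp : ℓ.Prime := hℓ.out
  haveI := finite_units V
  letI := Fintype.ofFinite (V →* ℂˣ)
  haveI := Fintype.ofFinite V
  -- the exponent
  obtain ⟨E, hE⟩ := (IsPGroup.iff_card (p := ℓ) (G := V)).1 hP
  have hEV : ∀ v : V, v ^ ℓ ^ (E + 1) = 1 := by
    intro v
    rw [pow_succ, pow_mul, ← hE, pow_card_eq_one', one_pow]
  have hEX : ∀ χ : V →* ℂˣ, χ ^ ℓ ^ (E + 1) = 1 := by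
    intro χ
    ext v
    rw [MonoidHom.pow_apply, ← map_pow, hEV, map_one, MonoidHom.one_apply]
  -- invariance of the coefficients
  have hfk : ∀ n : ℕ, ∀ v ∈ V, f (v ^ N ^ n) = f v := by
    intro n
    induction n with
    | zero => intro v _; rw [pow_zero, pow_one]
    | succ n ih =>
      intro v hv
      rw [pow_succ, pow_mul, hfN _ (V.pow_mem hv _), ih v hv]
  have hc : ∀ χ : V →* ℂˣ, ∀ j, j ≡ 1 [MOD ℓ] → cu V f (χ ^ j) = cu V f χ := by
    intro χ j hj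
    have hcop : Nat.Coprime ℓ j := by
      have h1 : Nat.gcd j ℓ = Nat.gcd 1 ℓ := Nat.ModEq.gcd_eq hj
      rw [Nat.coprime_comm, Nat.Coprime, h1, Nat.gcd_one_left]
    obtain ⟨n, hn⟩ := hGS.gen 1 j (by
      intro h
      exact hℓp.one_lt.ne' (Nat.dvd_one.1 h)) hj.symm
    refine cu_pow (by rw [hE]; exact hcop.pow_left E) (fun v hv => ?_) χ
    have hEl : El ℓ v := by
      refine ⟨E + 1, ?_⟩
      have := hEV ⟨v, hv⟩
      exact congrArg (fun x : V => (x : G)) this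
    have h2 := hn v hEl
    rw [pow_one] at h2
    rw [← h2, hfk n v hv]
  -- the evaluation
  let ev : (V →* ℂˣ) →* ℂ :=
    { toFun := fun χ => (χ ⟨y, hy⟩ : ℂ)
      map_one' := by simp
      map_mul' := by intro a b; simp }
  have hev : ∀ χ, ev χ = (χ ⟨y, hy⟩ : ℂ) := fun χ => rfl
  have hevRM : ∀ χ, ev χ ∈ RM M := by
    intro χ
    exact RM_of_int (H21.lam_integral ((Units.coeHom ℂ).comp χ) ⟨y, hy⟩)
  have hcRM : ∀ χ, cu V f χ ∈ RM M := fun χ => hf _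
  -- the average
  obtain ⟨hW1, hW2, -⟩ := hPWU G (ℓ ^ k) V hV
  rw [← hW] at hW1 hW2
  have hA : (Nat.card W : ℂ)⁻¹ * ∑ᶠ w : W, f (y * w) =
      ∑ χ ∈ Finset.univ.filter (fun χ : V →* ℂˣ => χ ^ ℓ ^ k = 1), cu V f χ * ev χ := by
    haveI := Fintype.ofFinite W
    rw [finsum_eq_sum_of_fintype]
    have h1 : ∀ w : W, f (y * w) =
        ∑ χ : V →* ℂˣ, cu V f χ * ev χ * (χ ⟨w, hW2 w.2⟩ : ℂ) := by
      intro w
      have h2 := inv_units hV f (⟨y, hy⟩ * ⟨w, hW2 w.2⟩ : V)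
      have h3 : ((⟨y, hy⟩ * ⟨w, hW2 w.2⟩ : V) : G) = y * w := rfl
      rw [h3] at h2
      rw [h2]
      refine Finset.sum_congr rfl fun χ _ => ?_
      rw [map_mul, Units.val_mul, hev, mul_assoc]
    rw [Finset.sum_congr rfl fun w _ => h1 w, Finset.sum_comm, Finset.mul_sum, Finset.sum_filter]
    refine Finset.sum_congr rfl fun χ _ => ?_
    rw [← Finset.mul_sum]
    have hcard : (Nat.card W : ℂ) ≠ 0 := by
      have : 0 < Nat.card W := Nat.card_pos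
      exact_mod_cast this.ne'
    let ψ : W →* ℂ := (Units.coeHom ℂ).comp (χ.comp (Subgroup.inclusion hW2))
    have h4 : ∑ w : W, (χ ⟨w, hW2 w.2⟩ : ℂ) = ∑ w : W, ψ w := rfl
    rw [h4, sum_hom_units ψ]
    have h5 : ψ = 1 ↔ χ ^ ℓ ^ k = 1 := by
      constructor
      · intro h
        ext v
        have h6 : (v : G) ^ ℓ ^ k ∈ W := (hW1 _).2 ⟨v, v.2, rfl⟩
        have h7 := DFunLike.congr_fun h ⟨(v : G) ^ ℓ ^ k, h6⟩
        have h8 : ψ ⟨(v : G) ^ ℓ ^ k, h6⟩ = (χ (v ^ ℓ ^ k) : ℂ) := rfl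
        rw [h8, map_pow] at h7
        rw [MonoidHom.pow_apply]
        exact h7
      · intro h
        ext w
        obtain ⟨v, hv, hwv⟩ := (hW1 w).1 w.2
        have h7 : Subgroup.inclusion hW2 w = (⟨v, hv⟩ : V) ^ ℓ ^ k := by
          ext
          exact hwv
        show ((χ (Subgroup.inclusion hW2 w) : ℂˣ) : ℂ) = 1
        rw [h7, map_pow, ← MonoidHom.pow_apply, h, MonoidHom.one_apply, Units.val_one]
    by_cases h6 : χ ^ ℓ ^ k = 1
    · rw [if_pos h6, if_pos (h5.2 h6), ← Nat.card_eq_fintype_card]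
      field_simp
    · rw [if_neg h6, if_neg (fun h => h6 (h5.1 h))]
      push_cast
      ring
  refine ⟨?_, ?_⟩
  · rw [hA]
    exact Subring.sum_mem _ fun χ _ => (RM M).mul_mem (hcRM χ) (hevRM χ)
  · have h1 : f y = ∑ χ : V →* ℂˣ, cu V f χ * ev χ := inv_units hV f ⟨y, hy⟩
    have h2 : f y - (Nat.card W : ℂ)⁻¹ * ∑ᶠ w : W, f (y * w) =
        ∑ χ ∈ Finset.univ.filter (fun χ : V →* ℂˣ => χ ^ ℓ ^ k ≠ 1), cu V f χ * ev χ := by
      rw [hA, h1, ← Finset.sum_filter_add_sum_filter_not Finset.univ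
        (fun χ : V →* ℂˣ => χ ^ ℓ ^ k = 1)]
      ring
    have hq1 := avg (X := V →* ℂˣ) hℓp hEX (cu V f)
    have hq2 := hq1 hc ev k
    rw [h2, hq2]
    have hq3 := orb2 (X := V →* ℂˣ) (RM M) hℓp hEX (cu V f)
    obtain ⟨r, hr, h3⟩ := hq3 hcRM hc ev hevRM k
    rw [h3, mul_comm, mul_div_assoc, div_self (pow_ne_zero _ (Nat.cast_ne_zero.2 hℓp.ne_zero)),
      mul_one]
    exact hr

end main

end Pool.Agent.PP.T8.H95
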